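import Pool.Agent.Results.MP_c19edd_an.CantorCriterion

/-!
# The achievement set of a perturbed dyadic sequence

For `x_{2n-1} = 2^{-(2n-1)}` and `x_{2n} = 1/(2^{2n} + 1)` the set of all subsums is a Cantor set.

The proof checks the hypotheses of the criterion for perturbed geometric sequences which is proved
in `MP_c19edd_an/CantorCriterion`: `|x_n - 2^{-n}| ≤ 4^{-n}` for all `n`, and
`x_l - r_l ≥ 4^{-l} / 8` for odd `l`.
-/

set_option autoImplicit false

open Set Filter Topology MeasureTheory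

namespace Pool.Agent.Results.MP_1e50ba_an.CantorSet

/-- The sequence: `x n = 1 / 2 ^ n` for odd `n` and `x n = 1 / (2 ^ n + 1)` for even `n`
(only the terms with `n ≥ 1` are used). -/
noncomputable def x (n : ℕ) : ℝ := if Odd n then 1 / 2 ^ n else 1 / (2 ^ n + 1)

/-- The achievement set `E(x_n)`: all sums of the `x_n` over `n ∈ A`, where `A` is a set of positive
integers. -/
def achievementSet : Set ℝ :=
  {s : ℝ | ∃ A : Set ℕ, A ⊆ {n | 1 ≤ n} ∧ s = ∑' n, A.indicator x n}

theorem x_odd (n : ℕ) : x (2 * n + 1) = 1 / 2 ^ (2 * n + 1) := by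
  unfold x
  rw [if_pos ⟨n, rfl⟩]

theorem x_even (n : ℕ) : x (2 * n) = 1 / (2 ^ (2 * n) + 1) := by
  unfold x
  rw [if_neg (by rw [Nat.not_odd_iff_even]; exact even_two_mul n)]

theorem x_pos (n : ℕ) : 0 < x n := by
  unfold x
  split_ifs <;> positivity

theorem x_le (n : ℕ) : x n ≤ 1 / 2 ^ n := by
  unfold x
  split_ifs
  · exact le_rfl
  · exact one_div_le_one_div_of_le (by positivity) (by linarith)

theorem x_ge (n : ℕ) : 1 / 2 ^ n - 1 / 2 ^ n / 2 ^ n ≤ x n := by
  unfold x
  have h : (0 : ℝ) < 2 ^ n := by positivity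
  split_ifs
  · have : (0 : ℝ) ≤ 1 / 2 ^ n / 2 ^ n := by positivity
    linarith
  · rw [div_div, div_sub_div _ _ h.ne' (by positivity), div_le_div_iff₀ (by positivity)
      (by positivity)]
    nlinarith [h, mul_pos h h]

theorem x_abs (n : ℕ) : |x n - 1 / 2 ^ n| ≤ 1 * (1 / 2 ^ n / 2 ^ n) := by
  have h1 := x_le n
  have h2 := x_ge n
  have h3 : (0 : ℝ) ≤ 1 / 2 ^ n / 2 ^ n := by positivity
  rw [abs_le]
  constructor <;> linarith

/-- The gap condition at the odd indices. -/
theorem gap (m : ℕ) : 1 / 8 * ((1 : ℝ) / 2 ^ (2 * m + 1) / 2 ^ (2 * m + 1)) ≤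
    x (2 * m + 1) - ∑' i, x (i + (2 * m + 1 + 1)) := by
  set l := 2 * m + 1 with hl
  have hg := Pool.Agent.Y805.AS.geo l
  set P : ℝ := 2 ^ l with hP
  have hP0 : 0 < P := by positivity
  -- the correction of the first term
  set c : ℝ := 1 / (2 * P) - 1 / (2 * P + 1) with hc
  have hbound : ∀ i : ℕ, x (i + (l + 1)) ≤ 1 / 2 ^ (i + (l + 1)) - (if i = 0 then c else 0) := by
    intro i
    split_ifs with h
    · subst h
      have h1 : 0 + (l + 1) = 2 * (m + 1) := by omega
      have h2 : (2 : ℝ) ^ (0 + (l + 1)) = 2 * P := by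
        rw [zero_add, pow_succ, hP]; ring
      rw [h1, x_even, ← h1, h2, hc]
      linarith
    · rw [sub_zero]
      exact x_le _
  have hs2 : HasSum (fun i : ℕ => (1 : ℝ) / 2 ^ (i + (l + 1)) - (if i = 0 then c else 0))
      (1 / 2 ^ l - c) := hg.sub (hasSum_ite_eq 0 c)
  have hs1 : Summable (fun i : ℕ => x (i + (l + 1))) :=
    Summable.of_nonneg_of_le (fun i => (x_pos _).le) hbound hs2.summable
  have hle : ∑' i, x (i + (l + 1)) ≤ 1 / 2 ^ l - c :=
    hasSum_le hbound hs1.hasSum hs2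
  have hxl : x l = 1 / P := by rw [hl, x_odd, ← hl]
  have hc2 : 1 / 8 * (1 / P / P) ≤ c := by
    have hP1 : 1 ≤ P := one_le_pow₀ (by norm_num)
    rw [hc, div_sub_div _ _ (by positivity) (by positivity), div_div, div_mul_div_comm,
      div_le_div_iff₀ (by positivity) (by positivity)]
    nlinarith [hP1, hP0]
  rw [hxl]
  have : (1 : ℝ) / 2 ^ l = 1 / P := by rw [hP]
  linarith

/-- The achievement set of the sequence `x_{2n-1} = 2^{-(2n-1)}`, `x_{2n} = 1/(2^{2n} + 1)`, `n ≥ 1`,
is a Cantor set: it is homeomorphic to the middle-thirds Cantor set. -/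
theorem result : Nonempty (achievementSet ≃ₜ cantorSet) := by
  have h := Pool.Agent.Results.MP_c19edd_an.CantorCriterion.criterion x (fun n => 1 / 2 ^ n) 1
    (1 / 8) 2 (by norm_num) (fun n _ => x_pos n) (fun n => by positivity) ?_ ?_
    (fun n _ => x_abs n) ?_
  · exact h.1
  · intro a b hab
    exact one_div_le_one_div_of_le (by positivity) (pow_le_pow_right₀ (by norm_num) hab)
  · have := tendsto_pow_atTop_nhds_zero_of_lt_one (r := (1 / 2 : ℝ)) (by norm_num) (by norm_num)
    refine this.congr fun n => ?_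
    rw [one_div_pow]
  · intro n
    rcases Nat.even_or_odd' n with ⟨k, hk | hk⟩
    · refine ⟨2 * k + 1, by omega, by omega, ?_⟩
      exact gap k
    · refine ⟨2 * k + 1, by omega, by omega, ?_⟩
      exact gap k

end Pool.Agent.Results.MP_1e50ba_an.CantorSet
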